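import Pool.Agent.Lib.MP_e6fef2_lc.TreeDefs

/-!
# Extending and glueing conditions of the generic Kurepa tree
-/

universe u

open Set

namespace Pool.Agent.Lib.MP_e6fef2_lc.H77

variable {I : Type u}

instance : NoMaxOrder W.{u} := Cardinal.noMaxOrder (Cardinal.aleph0_le_aleph 1)

theorem countable_Iio (e : W.{u}) : (Iio e).Countable := by
  have h := Cardinal.mk_Iio_toType_ord_lt e
  rw [← Cardinal.le_aleph0_iff_set_countable]
  have h1 : Cardinal.aleph.{u} 1 = Order.succ Cardinal.aleph0 := by
    rw [← Cardinal.aleph_zero, Cardinal.succ_aleph, zero_add]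
  exact Order.lt_succ_iff.1 (h.trans_le h1.le)

/-- Nodes of length `e'` above level `h`: finitely many values `true` from `h` on. -/
def finExt (h e' : W.{u}) (A : Set (W.{u} → Bool)) : Set (W.{u} → Bool) :=
  {u | cutb h u ∈ A ∧ (∀ m, e' ≤ m → u m = false) ∧ {m | h ≤ m ∧ u m = true}.Finite}

theorem finExt_countable {h e' : W.{u}} {A : Set (W.{u} → Bool)} (hA : A.Countable) :
    (finExt h e' A).Countable := by
  classical
  have hc : Countable (Iio e') := (countable_Iio e').to_subtype
  have hs : finExt h e' A ⊆ (fun p : (W.{u} → Bool) × Finset (Iio e') =>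
      (fun m : W.{u} => if m < h then p.1 m else decide (∃ j ∈ p.2, j.1 = m))) ''
        (A ×ˢ (univ : Set (Finset (Iio e')))) := by
    rintro u ⟨h1, h2, h3⟩
    let F : Finset W.{u} := h3.toFinset
    refine ⟨(cutb h u, (F.attach.image fun m => (⟨m.1, by
      have hm := (h3.mem_toFinset.1 m.2).2
      by_contra hcon
      rw [h2 _ (not_lt.1 hcon)] at hm
      exact absurd hm (by simp)⟩ : Iio e'))), ⟨h1, mem_univ _⟩, ?_⟩
    funext m
    by_cases hm : m < h
    · simp only [hm, if_true]
      exact cutb_of_lt hm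
    · simp only [hm, if_false]
      by_cases hu : u m = true
      · rw [hu]
        simp only [decide_eq_true_eq]
        have hmF : m ∈ F := h3.mem_toFinset.2 ⟨not_lt.1 hm, hu⟩
        exact ⟨_, Finset.mem_image.2 ⟨⟨m, hmF⟩, Finset.mem_attach _ _, rfl⟩, rfl⟩
      · rw [Bool.not_eq_true] at hu
        rw [hu]
        simp only [decide_eq_false_iff_not]
        rintro ⟨j, hj, hjm⟩
        obtain ⟨k, -, hk⟩ := Finset.mem_image.1 hj
        have := (h3.mem_toFinset.1 k.2).2
        have hkm : k.1 = m := by rw [← hjm, ← hk]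
        rw [hkm, hu] at this
        exact absurd this (by simp)
  exact ((hA.prod countable_univ).image _).mono hs

/-- The extension of `s` to height `e`. -/
noncomputable def raise (s : TC I) (e : W.{u}) (he : s.ht < e) : TC I where
  ht := e
  T := fun e' => by
    classical exact if e' ≤ s.ht then s.T e' else if e' ≤ e then finExt s.ht e' (s.T s.ht) else ∅
  a := s.a
  f := s.f
  low := by
    intro e' he' u hu m hm
    by_cases h : e' ≤ s.ht
    · simp only [h, if_true] at hu
      exact s.low _ h _ hu m hm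
    · simp only [h, if_false, he', if_true] at hu
      exact hu.2.1 m hm
  ctbl := by
    intro e' he'
    by_cases h : e' ≤ s.ht
    · simp only [h, if_true]
      exact s.ctbl _ h
    · simp only [h, if_false, he', if_true]
      exact finExt_countable (s.ctbl _ le_rfl)
  res := by
    intro e₁ he₁ e₂ he₂ u hu
    by_cases h₁ : e₁ ≤ s.ht
    · simp only [h₁, if_true] at hu
      simp only [he₂.trans h₁, if_true]
      exact s.res _ h₁ _ he₂ _ hu
    · simp only [h₁, if_false, he₁, if_true] at hu
      by_cases h₂ : e₂ ≤ s.ht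
      · simp only [h₂, if_true]
        rw [← cutb_cutb h₂]
        exact s.res _ le_rfl _ h₂ _ hu.1
      · simp only [h₂, if_false, he₂.trans he₁, if_true]
        refine ⟨?_, fun m hm => cutb_of_le hm, ?_⟩
        · rw [cutb_cutb (not_le.1 h₂).le]
          exact hu.1
        · refine hu.2.2.subset ?_
          rintro m ⟨hm, hm'⟩
          refine ⟨hm, ?_⟩
          by_contra hcon
          rcases lt_or_ge m e₂ with h | h
          · rw [cutb_of_lt h] at hm'
            exact hcon hm'
          · rw [cutb_of_le h] at hm'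
            exact absurd hm' (by simp)
  extn := by
    intro e₁ he₁ e₂ he₂ u hu
    by_cases h₁ : e₁ ≤ s.ht
    · simp only [he₂.trans h₁, if_true] at hu
      simp only [h₁, if_true]
      exact s.extn _ h₁ _ he₂ _ hu
    · by_cases h₂ : e₂ ≤ s.ht
      · simp only [h₂, if_true] at hu
        obtain ⟨v, hv, hvu⟩ := s.extn _ le_rfl _ h₂ _ hu
        refine ⟨v, ?_, hvu⟩
        simp only [h₁, if_false, he₁, if_true]
        refine ⟨?_, fun m hm => s.low _ le_rfl _ hv m ((not_le.1 h₁).le.trans hm), ?_⟩
        · rwa [cutb_eq_self (s.low _ le_rfl _ hv)]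
        · convert Set.finite_empty (α := W.{u})
          ext m
          simp only [mem_ofPred_eq, mem_empty_iff_false, iff_false, not_and]
          intro hm
          rw [s.low _ le_rfl _ hv m hm]
          simp
      · simp only [h₂, if_false, he₂.trans he₁, if_true] at hu
        refine ⟨u, ?_, cutb_eq_self hu.2.1⟩
        simp only [h₁, if_false, he₁, if_true]
        exact ⟨hu.1, fun m hm => hu.2.1 m (he₂.trans hm), hu.2.2⟩
  suc := by
    intro e' he' u hu i
    by_cases h : e' < s.ht
    · simp only [h.le, if_true] at hu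
      simp only [Order.succ_le_of_lt h, if_true]
      exact s.suc _ h _ hu i
    · have h' : ¬ Order.succ e' ≤ s.ht := fun hc => h (Order.succ_le_iff.1 hc)
      simp only [h', if_false, Order.succ_le_of_lt he', if_true]
      have hu1 : cutb s.ht u ∈ s.T s.ht ∧ (∀ m, e' ≤ m → u m = false) ∧
          {m | s.ht ≤ m ∧ u m = true}.Finite := by
        by_cases h2 : e' ≤ s.ht
        · have h3 : e' = s.ht := le_antisymm h2 (not_lt.1 h)
          subst h3
          simp only [le_refl, if_true] at hu
          refine ⟨?_, s.low _ le_rfl _ hu, ?_⟩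
          · rwa [cutb_eq_self (s.low _ le_rfl _ hu)]
          · convert Set.finite_empty (α := W.{u})
            ext m
            simp only [mem_ofPred_eq, mem_empty_iff_false, iff_false, not_and]
            intro hm
            rw [s.low _ le_rfl _ hu m hm]
            simp
        · simp only [h2, if_false, he'.le, if_true] at hu
          exact hu
      refine ⟨?_, ?_, ?_⟩
      · have : cutb s.ht (snoc e' u i) = cutb s.ht u := by
          rw [cutb_congr]
          intro m hm
          exact snoc_of_ne (hm.trans_le (not_lt.1 h)).ne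
        rw [this]
        exact hu1.1
      · intro m hm
        have hm' : e' < m := Order.succ_le_iff.1 hm
        rw [snoc_of_ne hm'.ne', hu1.2.1 m hm'.le]
      · refine (hu1.2.2.union (finite_singleton e')).subset ?_
        rintro m ⟨hm, hm'⟩
        by_cases hme : m = e'
        · right; exact hme
        · left
          rw [snoc_of_ne hme] at hm'
          exact ⟨hm, hm'⟩
  ne := by
    obtain ⟨v, hv⟩ := s.ne
    refine ⟨v, ?_⟩
    simp only [not_le.2 he, if_false, le_refl, if_true]
    refine ⟨?_, fun m hm => s.low _ le_rfl _ hv m (he.le.trans hm), ?_⟩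
    · rwa [cutb_eq_self (s.low _ le_rfl _ hv)]
    · convert Set.finite_empty (α := W.{u})
      ext m
      simp only [mem_ofPred_eq, mem_empty_iff_false, iff_false, not_and]
      intro hm
      rw [s.low _ le_rfl _ hv m hm]
      simp
  out := by
    intro e' he'
    have h1 : ¬ e' ≤ s.ht := not_le.2 (he.trans he')
    simp only [h1, if_false, not_le.2 he']
  a_ctbl := s.a_ctbl
  f_mem := by
    intro x hx
    simp only [not_le.2 he, if_false, le_refl, if_true]
    have hv := s.f_mem x hx
    refine ⟨?_, fun m hm => s.low _ le_rfl _ hv m (he.le.trans hm), ?_⟩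
    · rwa [cutb_eq_self (s.low _ le_rfl _ hv)]
    · convert Set.finite_empty (α := W.{u})
      ext m
      simp only [mem_ofPred_eq, mem_empty_iff_false, iff_false, not_and]
      intro hm
      rw [s.low _ le_rfl _ hv m hm]
      simp
  f_out := s.f_out

theorem raise_le (s : TC I) (e : W.{u}) (he : s.ht < e) : raise s e he ≤ s where
  ht := he.le
  T := fun e' he' => by simp only [raise, he', if_true]
  a := fun _ hx => hx.1
  f := fun _ _ _ _ => rfl

/-- KEXT: conditions can be extended to any height. -/
theorem kext (s : TC I) (e : W.{u}) : ∃ s' ≤ s, e ≤ s'.ht ∧ s'.a = s.a := by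
  rcases lt_or_ge s.ht e with he | he
  · exact ⟨raise s e he, raise_le s e he, le_rfl, rfl⟩
  · exact ⟨s, le_rfl, he, rfl⟩

/-- KEXT': conditions can be extended to any larger height exactly. -/
theorem kext' (s : TC I) (e : W.{u}) (he : s.ht ≤ e) : ∃ s' ≤ s, s'.ht = e ∧ s'.a = s.a := by
  rcases he.lt_or_eq with he | he
  · exact ⟨raise s e he, raise_le s e he, rfl, rfl⟩
  · exact ⟨s, le_rfl, he, rfl⟩

/-- KADD: a new branch through a given node of maximal length. -/
theorem kadd (s : TC I) (x : I) (hx : x ∉ s.a) (u : W.{u} → Bool) (hu : u ∈ s.T s.ht) :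
    ∃ s' ≤ s, s'.ht = s.ht ∧ s'.T = s.T ∧ s'.a = insert x s.a ∧ s'.f x = u := by
  classical
  refine ⟨{ s with
      a := insert x s.a
      f := Function.update s.f x u
      a_ctbl := s.a_ctbl.insert x
      f_mem := ?_
      f_out := ?_ }, ?_, rfl, rfl, rfl, by simp⟩
  · intro y hy
    by_cases h : y = x
    · subst h; simpa using hu
    · rw [Function.update_of_ne h]
      exact s.f_mem y (hy.resolve_left h)
  · intro y hy
    have h : y ≠ x := fun h => hy (h ▸ mem_insert _ _)
    change Function.update s.f x u y = _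
    rw [Function.update_of_ne h]
    exact s.f_out y fun h' => hy (mem_insert_of_mem _ h')
  · refine ⟨le_rfl, fun _ _ => rfl, fun y hy => mem_insert_of_mem _ hy.1, fun y hy m _ => ?_⟩
    have h : y ≠ x := fun h => hx (h ▸ hy.1)
    change Function.update s.f x u y m = _
    rw [Function.update_of_ne h]

/-- KGLUE: `r` extends the restriction of `s` to the indices in `C`; then `r` restricted to `C` and
`s` have a common extension, and the branch `x ∉ C` can be continued through any node. -/
theorem kglue (C : Set I) (s r : TC I) (h : TC.LeR C r s) (x : I) (hx : x ∈ s.a) (hxC : x ∉ C)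
    (v : W.{u} → Bool) (hv : v ∈ r.T r.ht) (hvs : cutb s.ht v = s.f x) :
    ∃ t ≤ s, t.ht = r.ht ∧ t.T = r.T ∧ t.a = (r.a ∩ C) ∪ s.a ∧ t.f x = v ∧
      ∀ q : TC I, q.a ⊆ C → r ≤ q → t ≤ q := by
  classical
  have hex : ∀ y : s.a, ∃ w ∈ r.T r.ht, cutb s.ht w = s.f y := fun y => by
    have h1 : s.f y ∈ r.T s.ht := by
      rw [h.T _ le_rfl]
      exact s.f_mem y y.2
    exact r.extn _ le_rfl _ h.ht _ h1
  choose w hw hws using hex
  let g : I → W.{u} → Bool := fun y =>
    if y ∈ r.a ∩ C then r.f y else if y = x then v else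
      if hy : y ∈ s.a then w ⟨y, hy⟩ else fun _ => false
  have gx : g x = v := by
    have : x ∉ r.a ∩ C := fun hx => hxC hx.2
    simp only [g, this, if_false, if_true]
  have gC : ∀ y ∈ r.a ∩ C, g y = r.f y := fun y hy => by simp only [g, hy, if_true]
  have gs : ∀ y ∈ s.a, g y ∈ r.T r.ht ∧ ∀ m < s.ht, g y m = s.f y m := by
    intro y hy
    by_cases hyC : y ∈ r.a ∩ C
    · rw [gC y hyC]
      exact ⟨r.f_mem y hyC.1, h.f y ⟨hy, hyC.2⟩⟩
    · by_cases hyx : y = x
      · subst hyx
        rw [gx]
        refine ⟨hv, fun m hm => ?_⟩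
        rw [← hvs, cutb_of_lt hm]
      · have : g y = w ⟨y, hy⟩ := by simp only [g, hyC, if_false, hyx, hy, dif_pos]
        rw [this]
        refine ⟨hw _, fun m hm => ?_⟩
        rw [← cutb_of_lt (u := w ⟨y, hy⟩) hm, hws]
  refine ⟨{ r with
      a := (r.a ∩ C) ∪ s.a
      f := g
      a_ctbl := (r.a_ctbl.mono inter_subset_left).union s.a_ctbl
      f_mem := ?_
      f_out := ?_ }, ?_, rfl, rfl, rfl, gx, ?_⟩
  · rintro y (hy | hy)
    · rw [gC y hy]
      exact r.f_mem y hy.1
    · exact (gs y hy).1
  · intro y hy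
    have h1 : y ∉ r.a ∩ C := fun h => hy (Or.inl h)
    have h2 : y ∉ s.a := fun h => hy (Or.inr h)
    have h3 : y ≠ x := fun h => h2 (h ▸ hx)
    simp only [g, h1, if_false, h3, h2, dif_neg, not_false_iff]
  · exact ⟨h.ht, h.T, fun y hy => Or.inr hy.1, fun y hy m hm => (gs y hy.1).2 m hm⟩
  · intro q hq hrq
    have hq1 : q.a ⊆ r.a := TC.a_sub hrq
    have hq2 : q.ht ≤ r.ht := TC.ht_le hrq
    have hq3 : ∀ e ≤ q.ht, r.T e = q.T e := fun e he => TC.T_eq hrq he
    refine ⟨hq2, hq3, fun y hy => Or.inl ⟨hq1 hy.1, hq hy.1⟩, fun y hy m hm => ?_⟩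
    change g y m = _
    rw [gC y ⟨hq1 hy.1, hq hy.1⟩]
    exact TC.f_eq hrq hy.1 hm

end Pool.Agent.Lib.MP_e6fef2_lc.H77
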