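import Pool.Agent.Lib.MP_e6fef2_lc.H77.TVal
import Pool.Agent.Lib.MP_e6fef2_lc.V.TDefs

/-!
# The club of closure points
-/

universe u

open Set Cardinal Filter

namespace Pool.Agent.Lib.MP_e6fef2_lc.H77

variable {I : Type u} {B : Type u} [CompleteBooleanAlgebra B]

/-- `δ` is closed under the function given by `D` on the conditions whose node is on `X_c`. -/
noncomputable def Ecl (e : TC I → B) (c : I) (p : PC.{u}) (D : W.{u} → PC.{u} → W.{u} → B)
    (δ : W.{u}) : B :=
  ⨅ ξ : W.{u}, ⨅ _ : ξ < δ, ⨅ q : PC.{u}, ⨅ _ : q ≤ p ∧ rk δ q, (thv e c q.d q.t ⇨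
    ⨆ r : PC.{u}, ⨆ _ : r ≤ q ∧ rk δ r, ⨆ β : W.{u}, ⨆ _ : β < δ, thv e c r.d r.t ⊓ D ξ r β)

theorem Ecl_le (e : TC I → B) (c : I) (p : PC.{u}) (D : W.{u} → PC.{u} → W.{u} → B)
    {δ ξ : W.{u}} (hξ : ξ < δ) {q : PC.{u}} (hq : q ≤ p ∧ rk δ q) :
    Ecl e c p D δ ≤ (thv e c q.d q.t ⇨ ⨆ r : PC.{u}, ⨆ _ : r ≤ q ∧ rk δ r, ⨆ β : W.{u},
      ⨆ _ : β < δ, thv e c r.d r.t ⊓ D ξ r β) :=
  (iInf₂_le ξ hξ).trans (iInf₂_le q hq)

/-- `δ > η` is a limit. -/
def lim (η δ : W.{u}) : Prop := η < δ ∧ ∀ a < δ, ∃ b < δ, a < b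

/-- CLOS: the closure points form a club. -/
theorem clos (hclub : ClubStatement.{u}) (hgen : GenStatement.{u})
    (hNZ : ∀ᶠ N in club, ∀ b : B, In N b → b ≠ ⊥ → gen B N ⊓ b ≠ ⊥)
    {e : TC I → B} (he : EV e) (c : I) (p : PC.{u}) (D : W.{u} → PC.{u} → W.{u} → B) (Γ : B)
    (h : ∀ ξ, ∀ q ≤ p, Γ ⊓ thv e c q.d q.t ≤
      ⨆ r, ⨆ _ : r ≤ q, ⨆ β, thv e c r.d r.t ⊓ D ξ r β) (η : W.{u}) :
    Γ ≤ tclub (fun δ => Ecl e c p D δ ⊓ ⨆ _ : lim η δ, ⊤) := by
  classical
  obtain ⟨hex, -, -, hconst, -, hfun, hfun2, hcs, hlist, hom, -⟩ := hclub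
  refine le_inf ?_ ?_
  · -- unbounded
    refine le_iInf fun a => ?_
    by_contra hcon
    set X : B := ⨆ b, ⨆ _ : a < b, (Ecl e c p D b ⊓ ⨆ _ : lim η b, ⊤) with hX
    have hw : Γ ⊓ Xᶜ ≠ ⊥ := fun h0 => hcon (by
      rwa [← le_compl_iff_disjoint_right.trans disjoint_iff, compl_compl] at h0)
    let φ : W.{u} → PC.{u} → PC.{u} × W.{u} → B := fun ξ q x =>
      ⨆ _ : x.1 ≤ q, thv e c x.1.d x.1.t ⊓ D ξ x.1 x.2
    let ψ : W.{u} → (W.{u} → Bool) → B := fun d t => thv e c d t
    let mk : (W.{u} × (W.{u} → Bool)) → (List W.{u} × List (W.{u} × W.{u})) → PC.{u} :=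
      fun x y => if h : ∃ q : PC.{u}, q.d = x.1 ∧ q.t = x.2 ∧ q.e = y.1.toFinset ∧
        q.I = y.2.toFinset then h.choose else p
    have hmk : ∀ q : PC.{u}, mk (q.d, q.t) (q.e.toList, q.I.toList) = q := by
      intro q
      have hq : ∃ q' : PC.{u}, q'.d = q.d ∧ q'.t = q.t ∧ q'.e = q.e.toList.toFinset ∧
          q'.I = q.I.toList.toFinset := ⟨q, rfl, rfl, by simp, by simp⟩
      simp only [mk, hq, dif_pos]
      obtain ⟨h1, h2, h3, h4⟩ := hq.choose_spec
      exact PC.ext h1 h2 (h3.trans (by simp)) (h4.trans (by simp))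
    obtain ⟨N, -, -, hN⟩ := hex _ (hNZ.and (hom.and ((hconst W.{u} a).and ((hconst W.{u} η).and
      ((hconst B (Γ ⊓ Xᶜ)).and ((hfun W.{u} W.{u} Order.succ).and
      (((hgen B).1 (PC.{u} × W.{u})).and (((hgen B).1 (W.{u} → Bool)).and
      ((hfun2 W.{u} PC.{u} _ φ).and ((hfun W.{u} _ ψ).and
      ((hfun (PC.{u} × W.{u}) PC.{u} Prod.fst).and ((hfun (PC.{u} × W.{u}) W.{u} Prod.snd).and
      ((hfun PC.{u} W.{u} PC.d).and
      ((hfun PC.{u} (Set W.{u}) (fun r => {k | ∃ J ∈ r.I, k = J.1 ∨ k = J.2})).and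
      ((hcs W.{u}).and ((hlist W.{u}).and ((hlist (W.{u} × W.{u})).and
      ((hfun2 W.{u} W.{u} _ Prod.mk).and
      ((hfun2 W.{u} (W.{u} → Bool) _ Prod.mk).and
      ((hfun2 (List W.{u}) (List (W.{u} × W.{u})) _ Prod.mk).and
      (hfun2 _ _ _ mk))))))))))))))))))))) ∅ countable_empty
    obtain ⟨n1, ⟨δ, hδ⟩, n3, n4, n5, n6, n7, n8, n9, n10, n11, n12, n13, n14, n15, n16, n17, n18,
      n19, n20, n21⟩ := hN
    have haδ : a < δ := (hδ a).1 n3
    have hlim : lim η δ := ⟨(hδ η).1 n4, fun b hb => ⟨Order.succ b, (hδ _).1 (n6 b ((hδ b).2 hb)),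
      Order.lt_succ b⟩⟩
    have hkey : gen B N ⊓ Γ ≤ Ecl e c p D δ := by
      refine le_iInf fun ξ => le_iInf fun hξ => le_iInf fun q => le_iInf fun hq => ?_
      rw [le_himp_iff]
      by_cases hqt : In N q.t
      · have hqN : In N q := by
          have h1 : In N (q.d, q.t) := n19 _ _ ((hδ _).2 hq.2.1) hqt
          have h2 : In N q.e.toList := (n16 _).2 fun k hk => (hδ k).2
            ((q.e_lt k (Finset.mem_toList.1 hk)).trans hq.2.1)
          have h3 : In N q.I.toList := (n17 _).2 fun J hJ => by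
            have := hq.2.2 J (Finset.mem_toList.1 hJ)
            exact n18 J.1 J.2 ((hδ _).2 this.1) ((hδ _).2 this.2)
          have h4 := n21 _ _ h1 (n20 _ _ h2 h3)
          rwa [hmk q] at h4
        have hφN : In N (φ ξ q) := n9 ξ q ((hδ ξ).2 hξ) hqN
        have h1 : Γ ⊓ thv e c q.d q.t ≤ ⨆ x, φ ξ q x := by
          refine (h ξ q hq.1).trans (iSup_le fun r => iSup_le fun hr => iSup_le fun β => ?_)
          exact le_iSup_of_le (r, β) (le_iSup_of_le hr le_rfl)
        calc gen B N ⊓ Γ ⊓ thv e c q.d q.t ≤ gen B N ⊓ ⨆ x, φ ξ q x := by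
              rw [inf_assoc]
              exact inf_le_inf_left _ h1
          _ ≤ _ := n7 _ hφN
          _ ≤ _ := by
              refine iSup_le fun x => iSup_le fun hx => iSup_le fun hxq => ?_
              have hx1 : In N x.1 := n11 x hx
              have hx2 : In N x.2 := n12 x hx
              have hrk : rk δ x.1 := by
                refine ⟨(hδ _).1 (n13 _ hx1), fun J hJ => ?_⟩
                have hc : ({k | ∃ J ∈ x.1.I, k = J.1 ∨ k = J.2} : Set W.{u}).Countable := by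
                  have : ({k | ∃ J ∈ x.1.I, k = J.1 ∨ k = J.2} : Set W.{u}) ⊆
                      ((x.1.I.image Prod.fst ∪ x.1.I.image Prod.snd : Finset W.{u}) :
                        Set W.{u}) := by
                    rintro k ⟨J, hJ, rfl | rfl⟩
                    · exact Finset.mem_coe.2 (Finset.mem_union_left _
                        (Finset.mem_image_of_mem _ hJ))
                    · exact Finset.mem_coe.2 (Finset.mem_union_right _
                        (Finset.mem_image_of_mem _ hJ))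
                  exact (Finset.countable_toSet _).mono this
                have h1 := n15 _ (n14 _ hx1) hc
                exact ⟨(hδ _).1 (h1 _ ⟨J, hJ, Or.inl rfl⟩), (hδ _).1 (h1 _ ⟨J, hJ, Or.inr rfl⟩)⟩
              exact le_iSup_of_le x.1 (le_iSup_of_le ⟨hxq, hrk⟩ (le_iSup_of_le x.2
                (le_iSup_of_le ((hδ _).1 hx2) le_rfl)))
      · have hψN : In N (ψ q.d) := n10 _ ((hδ _).2 hq.2.1)
        have h1 := n8 (ψ q.d) hψN
        have h2 : (⨆ t, ψ q.d t) = ⊤ := thv_top he c q.d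
        rw [h2, inf_top_eq] at h1
        have h3 : gen B N ⊓ thv e c q.d q.t ≤ ⊥ := by
          refine (inf_le_inf_right _ h1).trans ?_
          rw [iSup_inf_eq]
          refine iSup_le fun t => ?_
          rw [iSup_inf_eq]
          refine iSup_le fun ht => ?_
          refine (thv_disj he c q.d ?_).le
          rintro rfl
          exact hqt ht
        refine le_trans ?_ (h3.trans bot_le)
        exact inf_le_inf_right _ inf_le_left
    have h1 : gen B N ⊓ (Γ ⊓ Xᶜ) ≤ X := by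
      refine le_trans ?_ (le_iSup_of_le δ (le_iSup_of_le haδ le_rfl))
      refine le_inf ?_ ?_
      · rw [← inf_assoc]
        exact inf_le_left.trans hkey
      · exact le_iSup_of_le hlim le_top
    have h2 : gen B N ⊓ (Γ ⊓ Xᶜ) ≤ Xᶜ := inf_le_right.trans inf_le_right
    exact n1 _ n5 hw (le_bot_iff.1 ((le_inf h1 h2).trans (inf_compl_self X).le))
  · -- closed
    refine le_iInf fun d => le_iInf fun hd => ?_
    rw [le_himp_iff]
    refine inf_le_right.trans ?_
    set X : B := ⨅ a, ⨅ _ : a < d, ⨆ b, ⨆ _ : a < b ∧ b < d,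
      (Ecl e c p D b ⊓ ⨆ _ : lim η b, ⊤) with hX
    have hXa : ∀ a < d, X ≤ ⨆ b, ⨆ _ : a < b ∧ b < d, (Ecl e c p D b ⊓ ⨆ _ : lim η b, ⊤) :=
      fun a ha => iInf₂_le a ha
    by_cases hlim : lim η d
    · refine le_inf ?_ (le_iSup_of_le hlim le_top)
      refine le_iInf fun ξ => le_iInf fun hξ => le_iInf fun q => le_iInf fun hq => ?_
      obtain ⟨a, ha, hξa, haF⟩ := exists_gt_finset hlim.2 hξ
        (insert q.d (q.I.image Prod.fst ∪ q.I.image Prod.snd)) (by
          intro n hn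
          rcases Finset.mem_insert.1 hn with rfl | hn
          · exact hq.2.1
          · rcases Finset.mem_union.1 hn with hn | hn
            · obtain ⟨J, hJ, rfl⟩ := Finset.mem_image.1 hn
              exact (hq.2.2 J hJ).1
            · obtain ⟨J, hJ, rfl⟩ := Finset.mem_image.1 hn
              exact (hq.2.2 J hJ).2)
      have hrka : rk a q := by
        refine ⟨haF _ (Finset.mem_insert_self _ _), fun J hJ => ⟨?_, ?_⟩⟩
        · exact haF _ (Finset.mem_insert_of_mem (Finset.mem_union_left _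
            (Finset.mem_image_of_mem _ hJ)))
        · exact haF _ (Finset.mem_insert_of_mem (Finset.mem_union_right _
            (Finset.mem_image_of_mem _ hJ)))
      refine (hXa a ha).trans (iSup_le fun b => iSup_le fun hb => inf_le_left.trans ?_)
      refine (Ecl_le e c p D (hξa.trans hb.1) ⟨hq.1, hrka.1.trans hb.1, fun J hJ =>
        ⟨(hrka.2 J hJ).1.trans hb.1, (hrka.2 J hJ).2.trans hb.1⟩⟩).trans ?_
      refine himp_le_himp_left ?_
      refine iSup_mono fun r => iSup_le fun hr => ?_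
      refine le_iSup_of_le ⟨hr.1, hr.2.1.trans hb.2, fun J hJ => ⟨(hr.2.2 J hJ).1.trans hb.2,
        (hr.2.2 J hJ).2.trans hb.2⟩⟩ ?_
      refine iSup_mono fun β => iSup_le fun hβ => le_iSup_of_le (hβ.trans hb.2) le_rfl
    · refine le_trans ?_ bot_le
      by_cases h1 : η < d
      · have h2 : ∃ a < d, ∀ b < d, ¬ a < b := by
          by_contra hcon
          push Not at hcon
          exact hlim ⟨h1, hcon⟩
        obtain ⟨a, ha, hab⟩ := h2
        refine (hXa a ha).trans (iSup_le fun b => iSup_le fun hb => ?_)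
        exact absurd hb.1 (hab b hb.2)
      · obtain ⟨a, ha⟩ := hd
        refine (hXa a ha).trans (iSup_le fun b => iSup_le fun hb => inf_le_right.trans ?_)
        refine iSup_le fun hl => ?_
        exact absurd (hl.1.trans hb.2) h1

end Pool.Agent.Lib.MP_e6fef2_lc.H77
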