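import Pool.Agent.Lib.MP_e6fef2_lc.H77.Ssp
import Pool.Agent.Lib.MP_e6fef2_lc.H27.Claim
import Pool.Agent.Lib.MP_e6fef2_lc.Bridge

/-!
# Typed preservation of stationary sets in the model of the iteration
-/

universe u

open Set Cardinal Filter

namespace Pool.Agent.Lib.MP_e6fef2_lc.H77

open Pool.Agent.Lib.MP_100a6c_lc
open Pool.Agent.Lib.MP_c5d73d_lc.F (pr)

/-- `gen B N` is compatible with the nonzero elements of `N`. -/
theorem hnz (hclub : ClubStatement.{u}) (hxnz : XnzStatement.{u}) {S : Type u} [Preorder S]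
    [Nonempty S] (hS : SGC S) {B : Type u} [CompleteBooleanAlgebra B] (ι : H1.RO S → B)
    (hι : IsCE ι) (hpe : PE ι) :
    ∀ᶠ N in club, ∀ b : B, In N b → b ≠ ⊥ → gen B N ⊓ b ≠ ⊥ := by
  classical
  obtain ⟨-, -, -, -, -, hfun, -⟩ := hclub
  have hse := H27.se_of hι
  have hF : ∀ b : B, ∃ s : S, b ≠ ⊥ → ι (pr s) ⊓ b ≠ ⊥ := by
    intro b
    by_cases hb : b = ⊥
    · exact ⟨Classical.arbitrary S, fun h => absurd hb h⟩
    · by_contra hcon
      push Not at hcon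
      apply hb
      rw [← inf_top_eq b, ← hse.top, inf_iSup_eq]
      refine le_bot_iff.1 (iSup_le fun s => ?_)
      rw [inf_comm]
      exact (hcon s).2.le
  choose F hF using hF
  filter_upwards [hxnz S hS B ι hι hpe, hS, hfun B S F] with N h1 h2 h3 b hb hb0
  obtain ⟨t, -, htN, ht⟩ := h1 b hb (F b) (h3 b hb) (hF b hb0)
  obtain ⟨s', hs', hsg⟩ := h2 t htN
  intro h
  apply ht s' hs' hsg
  rw [h, inf_bot_eq]

theorem ev_of_se {S : Type u} [Preorder S] {B : Type u} [CompleteBooleanAlgebra B] {e : S → B}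
    (h : H27.SE e) : EV e where
  disj s t hst := h.disj s t fun r hr hrt => hst ⟨r, hr, hrt⟩
  cov s A hA := h.cov s A fun s' hs' => by
    obtain ⟨s'', h1, h2⟩ := hA s' hs'
    exact ⟨s'', h2, s'', h1, le_rfl⟩
  top := h.top

theorem pv_eq {I : Type u} {B : Type u} [CompleteBooleanAlgebra B] (e : TC I → B) :
    H27.pv e = pv e := rfl

theorem thv_eq {I : Type u} {B : Type u} [CompleteBooleanAlgebra B] (e : TC I → B) (c : I)
    (d : W.{u}) (u : W.{u} → Bool) : H27.thv e c d u = thv e c d u := rfl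

/-- CLAIMA in the model. -/
theorem claimA_of (hidx : IdxStatement.{u}) {κ : Cardinal.{u}} {I : Type u} [LinearOrder I]
    [WellFoundedLT I] (hI : Idx κ I) (hK : KC I (TC I)) {B : Type u} [CompleteBooleanAlgebra B]
    {ι : H1.RO (TC I) → B} (hB : IModel κ I (TC I) B ι) :
    ClaimA fun s => ι (pr s) := by
  classical
  intro Γ p D hD hDle
  obtain ⟨Z, M, hZm, hZc, hZ⟩ := hB.alg
  obtain ⟨hbd, -⟩ := hidx.2.1 κ I hI
  choose st hst using hZc
  have hse : H27.SE fun s => ι (pr s) := H27.se_of hB.ce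
  obtain ⟨i, hi⟩ := hbd (insert (st Γ) (range fun x : W.{u} × PC.{u} => st (D x.1 x.2))) (by
    refine (Cardinal.mk_insert_le).trans_lt ?_
    refine Cardinal.add_lt_of_lt hI.unc.le ?_ (Cardinal.one_lt_aleph0.trans hI.unc)
    refine Cardinal.mk_range_le.trans_lt ?_
    simp only [Cardinal.mk_prod, Cardinal.lift_id]
    exact Cardinal.mul_lt_of_lt hI.unc.le (H27.mk_W_lt hI) (H27.mk_PC_lt hI))
  obtain ⟨h1, h2, h3, h4, h5⟩ := hZ i
  have hΓ : Γ ∈ Z i := hZm (hi _ (mem_insert _ _)).le (hst Γ)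
  have hDZ : ∀ ξ x, D ξ x ∈ Z i := fun ξ x =>
    hZm (hi _ (mem_insert_of_mem _ ⟨(ξ, x), rfl⟩)).le (hst _)
  obtain ⟨C, hC, hcl⟩ := H27.claimA κ I hI hK hse (Z i) (M i) h1 (fun s => h2 _) h4 (by
    intro a ha ha0
    obtain ⟨s, m, hm, h6, h7, h8⟩ := h5 a ha ha0
    refine ⟨s, m, hm, h6, h7, fun s' hs' h9 => ?_⟩
    have h10 : (pr s' : H1.RO (TC I)) ≤ prj ι m :=
      (Pool.Agent.Lib.MP_c5d73d_lc.F.H62.pr_mono hs').trans h8
    have h11 : m ≤ ι (pr s')ᶜ := by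
      rw [hB.ce.compl, le_compl_iff_disjoint_left, disjoint_iff]
      exact h9
    have h12 : prj ι m ≤ (pr s')ᶜ := sInf_le h11
    have h13 : (pr s' : H1.RO (TC I)) ≤ ⊥ :=
      (le_inf le_rfl (h10.trans h12)).trans (inf_compl_self _).le
    exact Pool.Agent.Lib.MP_c5d73d_lc.F.H62.pr_ne_bot s' (le_bot_iff.1 h13)) h3 D hDZ hDle Γ hΓ p hD
  refine ⟨C, ?_, hcl⟩
  intro hcc
  obtain ⟨c, hc1, hc2⟩ := H27.exists_not_mem hI hC hcc
  exact hc2 hc1

/-- SSP in the model. -/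
theorem ssp_of (hidx : IdxStatement.{u}) (hclub : ClubStatement.{u}) (hgen : GenStatement.{u})
    (hxnz : XnzStatement.{u}) {κ : Cardinal.{u}} {I : Type u} [LinearOrder I]
    [WellFoundedLT I] (hI : Idx κ I) (hK : KC I (TC I)) [Nonempty (TC I)] (hS : SGC (TC I))
    {B : Type u} [CompleteBooleanAlgebra B]
    {ι : H1.RO (TC I) → B} (hB : IModel κ I (TC I) B ι) :
    TSSP (H27.pv fun s => ι (pr s)) :=
  ssp hclub hgen (hnz hclub hxnz hS ι hB.ce hB.pe) (ev_of_se (H27.se_of hB.ce))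
    (claimA_of hidx hI hK hB)

end Pool.Agent.Lib.MP_e6fef2_lc.H77
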