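import Pool.Agent.Lib.MP_e6fef2_lc.H77.Glue

/-!
# The amalgamation in the poset `PC`
-/

universe u

open Set

namespace Pool.Agent.Lib.MP_e6fef2_lc.H77

/-- The condition `q` has rank less than `δ`. -/
def rk (δ : W.{u}) (q : PC.{u}) : Prop := q.d < δ ∧ ∀ J ∈ q.I, J.1 < δ ∧ J.2 < δ

theorem exists_gt_finset {δ : W.{u}} (hδ : ∀ a < δ, ∃ b < δ, a < b) {a : W.{u}} (ha : a < δ)
    (F : Finset W.{u}) (hF : ∀ n ∈ F, n < δ) : ∃ m < δ, a < m ∧ ∀ n ∈ F, n < m := by
  classical
  induction F using Finset.induction_on with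
  | empty =>
    obtain ⟨b, hb, hab⟩ := hδ a ha
    exact ⟨b, hb, hab, by simp⟩
  | insert x F hx ih =>
    obtain ⟨m, hm, ham, hmF⟩ := ih fun n hn => hF n (Finset.mem_insert_of_mem hn)
    have hx' : x < δ := hF x (Finset.mem_insert_self _ _)
    obtain ⟨b, hb, hb'⟩ := hδ (max m x) (max_lt hm hx')
    refine ⟨b, hb, ham.trans ((le_max_left _ _).trans_lt hb'), ?_⟩
    intro n hn
    rcases Finset.mem_insert.1 hn with rfl | hn
    · exact (le_max_right _ _).trans_lt hb'
    · exact (hmF n hn).trans ((le_max_left _ _).trans_lt hb')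

/-- PAM: amalgamation. -/
theorem pam (p : PC.{u}) (δ : W.{u}) (u : W.{u} → Bool) (hδ : ∀ a < δ, ∃ b < δ, a < b)
    (hp : rk δ p) (hu : ∀ m, δ ≤ m → u m = false) (hpu : cutb p.d u = p.t) :
    ∃ qs ≤ p, qs.d = Order.succ δ ∧ qs.t = snoc δ u true ∧
      ∀ t ≤ qs, ∃ q1 ≤ p, rk δ q1 ∧ q1.t = cutb q1.d u ∧
        ∀ r ≤ q1, rk δ r → r.t = cutb r.d u → ∃ s ≤ t, s ≤ r ∧ s.d = t.d ∧ s.t = t.t := by
  classical
  have hpe : ∀ n ∈ p.e, n < δ := fun n hn => (p.e_lt n hn).trans hp.1
  have hpt : ∀ m < p.d, u m = p.t m := fun m hm => by rw [← hpu, cutb_of_lt hm]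
  have hsn : ∀ m < δ, snoc δ u true m = u m := fun m hm => snoc_of_ne hm.ne
  let qs : PC.{u} :=
    { d := Order.succ δ
      t := snoc δ u true
      e := insert δ p.e
      I := p.I
      low := fun m hm => by
        have h : δ < m := Order.succ_le_iff.1 hm
        rw [snoc_of_ne h.ne', hu m h.le]
      e_lt := fun n hn => by
        rcases Finset.mem_insert.1 hn with rfl | hn
        · exact Order.lt_succ _
        · exact (hpe n hn).trans (Order.lt_succ _)
      e_t := fun n hn => by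
        rcases Finset.mem_insert.1 hn with rfl | hn
        · exact snoc_self
        · rw [hsn n (hpe n hn), hpt n (p.e_lt n hn)]
          exact p.e_t n hn
      avoid := fun J hJ n hn => by
        rcases Finset.mem_insert.1 hn with rfl | hn
        · exact fun h => absurd h.2 (not_le.2 (hp.2 J hJ).2)
        · exact p.avoid J hJ n hn }
  have hqp : qs ≤ p := by
    refine PC.le_def.2 ⟨hp.1.le.trans (Order.le_succ _), fun m hm => ?_, Finset.subset_insert _ _,
      Finset.Subset.refl _⟩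
    change snoc δ u true m = _
    rw [hsn m (hm.trans hp.1), hpt m hm]
  refine ⟨qs, hqp, rfl, rfl, ?_⟩
  intro t ht
  obtain ⟨htd, htt, hte, htI⟩ := PC.le_def.1 ht
  have htd' : Order.succ δ ≤ t.d := htd
  have hδt : δ < t.d := Order.succ_le_iff.1 htd'
  have htu : ∀ m < δ, t.t m = u m := fun m hm => by
    rw [htt m (hm.trans (Order.lt_succ _))]
    exact hsn m hm
  have hδe : δ ∈ t.e := hte (Finset.mem_insert_self _ _)
  obtain ⟨m, hm, hdm, hme⟩ := exists_gt_finset hδ hp.1 (t.e.filter (· < δ))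
    fun n hn => (Finset.mem_filter.1 hn).2
  let q1 : PC.{u} :=
    { d := m
      t := cutb m u
      e := t.e.filter (· < δ)
      I := t.I.filter fun J => J.1 < δ ∧ J.2 < δ
      low := fun k hk => cutb_of_le hk
      e_lt := hme
      e_t := fun n hn => by
        rw [cutb_of_lt (hme n hn), ← htu n (Finset.mem_filter.1 hn).2]
        exact t.e_t n (Finset.mem_filter.1 hn).1
      avoid := fun J hJ n hn => t.avoid J (Finset.mem_filter.1 hJ).1 n (Finset.mem_filter.1 hn).1 }
  have hq1 : q1 ≤ p := by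
    refine PC.le_def.2 ⟨hdm.le, fun k hk => ?_, fun n hn => ?_, fun J hJ => ?_⟩
    · change cutb m u k = _
      rw [cutb_of_lt (hk.trans hdm), hpt k hk]
    · exact Finset.mem_filter.2 ⟨hte (Finset.mem_insert_of_mem hn), hpe n hn⟩
    · exact Finset.mem_filter.2 ⟨htI hJ, hp.2 J hJ⟩
  refine ⟨q1, hq1, ⟨hm, fun J hJ => (Finset.mem_filter.1 hJ).2⟩, rfl, ?_⟩
  intro r hr hrk hrt
  obtain ⟨-, -, hre, hrI⟩ := PC.le_def.1 hr
  have hru : ∀ k < r.d, r.t k = u k := fun k hk => by rw [hrt, cutb_of_lt hk]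
  let s : PC.{u} :=
    { d := t.d
      t := t.t
      e := t.e ∪ r.e
      I := t.I ∪ r.I
      low := t.low
      e_lt := fun n hn => by
        rcases Finset.mem_union.1 hn with hn | hn
        · exact t.e_lt n hn
        · exact ((r.e_lt n hn).trans hrk.1).trans hδt
      e_t := fun n hn => by
        rcases Finset.mem_union.1 hn with hn | hn
        · exact t.e_t n hn
        · rw [htu n ((r.e_lt n hn).trans hrk.1), ← hru n (r.e_lt n hn)]
          exact r.e_t n hn
      avoid := fun J hJ n hn h => by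
        rcases Finset.mem_union.1 hJ with hJ | hJ <;> rcases Finset.mem_union.1 hn with hn | hn
        · exact t.avoid J hJ n hn h
        · have hn' : n < δ := (r.e_lt n hn).trans hrk.1
          rcases lt_or_ge J.2 δ with h2 | h2
          · exact r.avoid J (hrI (Finset.mem_filter.2 ⟨hJ, h.1.trans_lt hn', h2⟩)) n hn h
          · exact t.avoid J hJ δ hδe ⟨h.1.trans hn'.le, h2⟩
        · have h2 := (hrk.2 J hJ).2
          exact r.avoid J hJ n (hre (Finset.mem_filter.2 ⟨hn, h.2.trans_lt h2⟩)) h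
        · exact r.avoid J hJ n hn h }
  refine ⟨s, ?_, ?_, rfl, rfl⟩
  · exact PC.le_def.2 ⟨le_rfl, fun _ _ => rfl, Finset.subset_union_left, Finset.subset_union_left⟩
  · refine PC.le_def.2 ⟨(hrk.1.trans hδt).le, fun k hk => ?_, Finset.subset_union_right,
      Finset.subset_union_right⟩
    change t.t k = _
    rw [htu k (hk.trans hrk.1), hru k hk]

end Pool.Agent.Lib.MP_e6fef2_lc.H77
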