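import Pool.Agent.Lib.MP_e6fef2_lc.H77.Clos

/-!
# The poset `P` preserves stationary sets
-/

universe u

open Set Cardinal Filter

namespace Pool.Agent.Lib.MP_e6fef2_lc.H77

variable {I : Type u} {B : Type u} [CompleteBooleanAlgebra B]

/-- One branch: the conclusion at a point of the stationary set. -/
theorem ssp_point {e : TC I → B} (he : EV e) (c : I) (p : PC.{u}) (T : W.{u} → B)
    (D : W.{u} → PC.{u} → W.{u} → B) (δ : W.{u}) (hδ : ∀ a < δ, ∃ b < δ, a < b) (hp : rk δ p) :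
    thv e c p.d p.t ⊓ T δ ⊓ Ecl e c p D δ ≤
      ⨆ q, ⨆ _ : q ≤ p, ⨆ δ, pv e q ⊓ T δ ⊓ ⨅ ξ, ⨅ _ : ξ < δ, ⨅ t, ⨅ _ : t ≤ q,
        pv e t ⇨ ⨆ s, ⨆ _ : s ≤ t, pv e s ⊓ ⨆ r, ⨆ _ : s ≤ r, pv e r ⊓
          ⨆ β, ⨆ _ : β < δ, D ξ r β := by
  classical
  have htop := thv_top he c δ
  rw [← inf_top_eq (thv e c p.d p.t ⊓ T δ ⊓ Ecl e c p D δ), ← htop, inf_iSup_eq]
  refine iSup_le fun u => ?_
  by_cases hu : cutb δ u = u
  swap
  · rw [thv_low c hu, inf_bot_eq]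
    exact bot_le
  by_cases hpu : cutb p.d u = p.t
  swap
  · have h1 := thv_le_thv (e := e) c hp.1.le u
    have h2 : thv e c p.d p.t ⊓ thv e c δ u = ⊥ := by
      refine le_bot_iff.1 ((inf_le_inf_left _ h1).trans (thv_disj he c p.d ?_).le)
      exact fun h => hpu h.symm
    refine le_trans ?_ (h2.le.trans bot_le)
    exact inf_le_inf_right _ (inf_le_left.trans inf_le_left)
  have hul : ∀ m, δ ≤ m → u m = false := fun m hm => by rw [← hu, cutb_of_le hm]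
  obtain ⟨qs, hqs, hqd, hqt, hq⟩ := pam p δ u hδ hp hul hpu
  refine le_iSup_of_le qs (le_iSup_of_le hqs (le_iSup_of_le δ ?_))
  refine le_inf (le_inf ?_ ?_) ?_
  · refine inf_le_right.trans ((thv_le_ttv c δ u).trans ?_)
    unfold pv
    rw [hqd, hqt]
    exact ttv_succ he δ u true
  · exact inf_le_left.trans (inf_le_left.trans inf_le_right)
  · refine le_iInf fun ξ => le_iInf fun hξ => le_iInf fun t => le_iInf fun ht => ?_
    rw [le_himp_iff]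
    obtain ⟨q1, hq1, hrk, hq1t, hr⟩ := hq t ht
    have h1 : thv e c δ u ≤ thv e c q1.d q1.t := by
      rw [hq1t]
      exact thv_le_thv c hrk.1.le u
    have h2 : Ecl e c p D δ ⊓ thv e c δ u ≤ ⨆ r : PC.{u}, ⨆ _ : r ≤ q1 ∧ rk δ r, ⨆ β : W.{u},
        ⨆ _ : β < δ, thv e c r.d r.t ⊓ D ξ r β :=
      (inf_le_inf (Ecl_le e c p D hξ ⟨hq1, hrk⟩) h1).trans himp_inf_le
    have h3 : thv e c p.d p.t ⊓ T δ ⊓ Ecl e c p D δ ⊓ thv e c δ u ⊓ pv e t ≤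
        (⨆ r : PC.{u}, ⨆ _ : r ≤ q1 ∧ rk δ r, ⨆ β : W.{u},
        ⨆ _ : β < δ, thv e c r.d r.t ⊓ D ξ r β) ⊓ thv e c δ u ⊓ pv e t := by
      refine inf_le_inf_right _ (le_inf ?_ inf_le_right)
      exact le_trans (inf_le_inf_right _ inf_le_right) h2
    refine h3.trans ?_
    rw [inf_assoc, iSup_inf_eq]
    refine iSup_le fun r => ?_
    rw [iSup_inf_eq]
    refine iSup_le fun hrq => ?_
    rw [iSup_inf_eq]
    refine iSup_le fun β => ?_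
    rw [iSup_inf_eq]
    refine iSup_le fun hβ => ?_
    by_cases hrt : r.t = cutb r.d u
    · obtain ⟨s, hs, hsr, hsd, hst⟩ := hr r hrq.1 hrq.2 hrt
      refine le_iSup_of_le s (le_iSup_of_le hs (le_inf ?_ ?_))
      · unfold pv
        rw [hsd, hst]
        exact inf_le_right.trans inf_le_right
      · refine le_iSup_of_le r (le_iSup_of_le hsr (le_inf ?_ ?_))
        · exact inf_le_left.trans (inf_le_left.trans (thv_le_ttv c r.d r.t))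
        · refine le_iSup_of_le β (le_iSup_of_le hβ ?_)
          exact inf_le_left.trans inf_le_right
    · have h4 := thv_le_thv (e := e) c hrq.2.1.le u
      have h5 : thv e c r.d r.t ⊓ thv e c δ u = ⊥ :=
        le_bot_iff.1 ((inf_le_inf_left _ h4).trans (thv_disj he c r.d hrt).le)
      refine le_trans ?_ (h5.le.trans bot_le)
      exact inf_le_inf inf_le_left inf_le_left

/-- SSP for one branch. -/
theorem ssp_branch (hclub : ClubStatement.{u}) (hgen : GenStatement.{u})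
    (hNZ : ∀ᶠ N in club, ∀ b : B, In N b → b ≠ ⊥ → gen B N ⊓ b ≠ ⊥)
    {e : TC I → B} (he : EV e) (c : I) (p : PC.{u}) (T : W.{u} → B)
    (D : W.{u} → PC.{u} → W.{u} → B) (Γ : B) (hT : Γ ≤ tstat T)
    (h : ∀ ξ, ∀ q ≤ p, Γ ⊓ thv e c q.d q.t ≤
      ⨆ r, ⨆ _ : r ≤ q, ⨆ β, thv e c r.d r.t ⊓ D ξ r β) :
    Γ ⊓ thv e c p.d p.t ≤
      ⨆ q, ⨆ _ : q ≤ p, ⨆ δ, pv e q ⊓ T δ ⊓ ⨅ ξ, ⨅ _ : ξ < δ, ⨅ t, ⨅ _ : t ≤ q,
        pv e t ⇨ ⨆ s, ⨆ _ : s ≤ t, pv e s ⊓ ⨆ r, ⨆ _ : s ≤ r, pv e r ⊓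
          ⨆ β, ⨆ _ : β < δ, D ξ r β := by
  classical
  obtain ⟨η, hη⟩ : ∃ η : W.{u}, p.d ≤ η ∧ ∀ J ∈ p.I, J.1 ≤ η ∧ J.2 ≤ η := by
    have : Nonempty W.{u} := ⟨p.d⟩
    obtain ⟨η, hη⟩ := (insert p.d (p.I.image Prod.fst ∪ p.I.image Prod.snd)).exists_le
    refine ⟨η, hη _ (Finset.mem_insert_self _ _), fun J hJ => ⟨?_, ?_⟩⟩
    · exact hη _ (Finset.mem_insert_of_mem (Finset.mem_union_left _
        (Finset.mem_image_of_mem _ hJ)))
    · exact hη _ (Finset.mem_insert_of_mem (Finset.mem_union_right _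
        (Finset.mem_image_of_mem _ hJ)))
  have h1 := clos hclub hgen hNZ he c p D Γ h η
  have h2 : Γ ≤ ⨆ a, T a ⊓ (Ecl e c p D a ⊓ ⨆ _ : lim η a, ⊤) := by
    have h3 := hT.trans (iInf_le _ (fun δ => Ecl e c p D δ ⊓ ⨆ _ : lim η δ, ⊤))
    exact (le_inf h3 h1).trans himp_inf_le
  refine (inf_le_inf_right _ h2).trans ?_
  rw [iSup_inf_eq]
  refine iSup_le fun δ => ?_
  by_cases hl : lim η δ
  · refine le_trans ?_ (ssp_point he c p T D δ hl.2 ⟨hη.1.trans_lt hl.1, fun J hJ =>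
      ⟨(hη.2 J hJ).1.trans_lt hl.1, (hη.2 J hJ).2.trans_lt hl.1⟩⟩)
    refine le_inf (le_inf inf_le_right ?_) ?_
    · exact inf_le_left.trans inf_le_left
    · exact inf_le_left.trans (inf_le_right.trans inf_le_left)
  · simp [hl]

/-- The conclusion of CLAIMA, relative form. -/
def ClaimA (e : TC I → B) : Prop := ∀ (Γ : B) (p : PC.{u}) (D : W.{u} → PC.{u} → B),
  (∀ ξ, ∀ x ≤ p, Γ ⊓ pv e x ≤ ⨆ x', ⨆ _ : x' ≤ x, D ξ x') → (∀ ξ x, D ξ x ≤ pv e x) →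
    ∃ C : Set I, ¬ (Cᶜ).Countable ∧ ∀ c ∉ C, ∀ ξ, ∀ x ≤ p,
      Γ ⊓ thv e c x.d x.t ≤ ⨆ x', ⨆ _ : x' ≤ x, D ξ x' ⊓ thv e c x'.d x'.t

/-- SSP. -/
theorem ssp (hclub : ClubStatement.{u}) (hgen : GenStatement.{u})
    (hNZ : ∀ᶠ N in club, ∀ b : B, In N b → b ≠ ⊥ → gen B N ⊓ b ≠ ⊥)
    {e : TC I → B} (he : EV e) (hA : ClaimA e) : TSSP (pv e) := by
  intro Γ p T D hΓ hT hD
  obtain ⟨C, hC, hCl⟩ := hA Γ p (fun ξ x => pv e x ⊓ ⨆ β, D ξ x β) (by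
    intro ξ x hx
    refine (hD ξ x hx).trans (iSup_mono fun r => iSup_mono fun hr => ?_)
    refine iSup_le fun β => inf_le_inf_left _ (le_iSup _ β)) (fun ξ x => inf_le_left)
  have h1 : Γ ≤ ⨆ c : ↥(Cᶜ), thv e c.1 p.d p.t := hΓ.trans (spr he hC p.d p.t)
  have h2 : Γ ≤ ⨆ c : ↥(Cᶜ), Γ ⊓ thv e c.1 p.d p.t := by
    rw [← inf_iSup_eq]
    exact le_inf le_rfl h1
  refine h2.trans (iSup_le fun c => ?_)
  refine ssp_branch hclub hgen hNZ he c.1 p T D Γ hT ?_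
  intro ξ q hq
  refine (hCl c.1 c.2 ξ q hq).trans (iSup_mono fun r => iSup_mono fun hr => ?_)
  rw [inf_comm, ← inf_iSup_eq]
  exact inf_le_inf_left _ inf_le_right

end Pool.Agent.Lib.MP_e6fef2_lc.H77
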