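import Pool.Agent.Lib.MP_e6fef2_lc.H77.Pam

/-!
# Boolean values of statements about the generic tree
-/

universe u

open Set Cardinal

namespace Pool.Agent.Lib.MP_e6fef2_lc.H77

variable {I : Type u} {B : Type u} [CompleteBooleanAlgebra B]

/-- `e s` is the Boolean value of (`s` is in the generic filter). -/
structure EV {S : Type u} [Preorder S] (e : S → B) : Prop where
  disj : ∀ s t, (¬ ∃ r, r ≤ s ∧ r ≤ t) → e s ⊓ e t = ⊥
  cov : ∀ (s : S) (A : Set S), (∀ s' ≤ s, ∃ s'' ≤ s', s'' ∈ A) → e s ≤ ⨆ a ∈ A, e a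
  top : ⨆ s, e s = ⊤

/-- The value of `u ∈ 𝒯_d`. -/
noncomputable def ttv (e : TC I → B) (d : W.{u}) (u : W.{u} → Bool) : B :=
  ⨆ s : {s : TC I // u ∈ s.T d}, e s.1

/-- The value of `p ∈ P`. -/
noncomputable def pv (e : TC I → B) (p : PC.{u}) : B := ttv e p.d p.t

/-- The value of `X_c` restricted to `d` is `u`. -/
noncomputable def thv (e : TC I → B) (c : I) (d : W.{u}) (u : W.{u} → Bool) : B :=
  ⨆ s : {s : TC I // c ∈ s.a ∧ d ≤ s.ht ∧ cutb d (s.f c) = u}, e s.1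

theorem cutb_f_congr {s t : TC I} (h : s ≤ t) {c : I} (hc : c ∈ t.a) {d : W.{u}} (hd : d ≤ t.ht) :
    cutb d (s.f c) = cutb d (t.f c) :=
  cutb_congr.2 fun _ hm => TC.f_eq h hc (hm.trans_le hd)

theorem mem_T_ht {s : TC I} {d : W.{u}} {u : W.{u} → Bool} (h : u ∈ s.T d) : d ≤ s.ht := by
  by_contra hcon
  rw [s.out d (not_le.1 hcon)] at h
  exact h

/-- Every condition has an extension of height above `d` with `c` among its indices. -/
theorem exists_ext (s : TC I) (c : I) (d : W.{u}) : ∃ t ≤ s, c ∈ t.a ∧ d ≤ t.ht := by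
  obtain ⟨t, hts, hd, hta⟩ := kext s d
  by_cases hc : c ∈ t.a
  · exact ⟨t, hts, hc, hd⟩
  · obtain ⟨v, hv⟩ := t.ne
    obtain ⟨t', h1, h2, -, h4, -⟩ := kadd t c hc v hv
    exact ⟨t', h1.trans hts, h4 ▸ mem_insert _ _, h2 ▸ hd⟩

section

variable {e : TC I → B} (he : EV e)

theorem thv_le_ttv (c : I) (d : W.{u}) (u : W.{u} → Bool) : thv e c d u ≤ ttv e d u := by
  refine iSup_le ?_
  rintro ⟨s, h1, h2, rfl⟩
  exact le_iSup_of_le (⟨s, s.cut_f_mem h1 h2⟩ : {s' : TC I // cutb d (s.f c) ∈ s'.T d}) le_rfl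

theorem thv_le_thv (c : I) {d d' : W.{u}} (h : d' ≤ d) (u : W.{u} → Bool) :
    thv e c d u ≤ thv e c d' (cutb d' u) := by
  refine iSup_le ?_
  rintro ⟨s, h1, h2, rfl⟩
  exact le_iSup_of_le (⟨s, h1, h.trans h2, (cutb_cutb h _).symm⟩ :
    {s' : TC I // c ∈ s'.a ∧ d' ≤ s'.ht ∧ cutb d' (s'.f c) = cutb d' (cutb d (s.f c))}) le_rfl

theorem thv_low (c : I) {d : W.{u}} {u : W.{u} → Bool} (h : cutb d u ≠ u) : thv e c d u = ⊥ := by
  refine le_bot_iff.1 (iSup_le ?_)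
  rintro ⟨s, h1, h2, rfl⟩
  exact absurd (cutb_cutb le_rfl _) h

include he

theorem thv_disj (c : I) (d : W.{u}) {u u' : W.{u} → Bool} (h : u ≠ u') :
    thv e c d u ⊓ thv e c d u' = ⊥ := by
  refine le_bot_iff.1 ?_
  unfold thv
  rw [iSup_inf_eq]
  refine iSup_le ?_
  rintro ⟨s, h1, h2, rfl⟩
  rw [inf_iSup_eq]
  refine iSup_le ?_
  rintro ⟨s', h1', h2', rfl⟩
  refine (he.disj _ _ ?_).le
  rintro ⟨r, hr, hr'⟩
  exact h ((cutb_f_congr hr h1 h2).symm.trans (cutb_f_congr hr' h1' h2'))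

theorem thv_top (c : I) (d : W.{u}) : ⨆ u, thv e c d u = ⊤ := by
  refine top_le_iff.1 ?_
  rw [← he.top]
  refine iSup_le fun s => ?_
  refine (he.cov s {t | c ∈ t.a ∧ d ≤ t.ht} ?_).trans ?_
  · intro s' _
    obtain ⟨t, h1, h2, h3⟩ := exists_ext s' c d
    exact ⟨t, h1, h2, h3⟩
  · refine iSup₂_le fun t ht => ?_
    refine le_iSup_of_le (cutb d (t.f c)) ?_
    exact le_iSup_of_le (⟨t, ht.1, ht.2, rfl⟩ :
      {s : TC I // c ∈ s.a ∧ d ≤ s.ht ∧ cutb d (s.f c) = cutb d (t.f c)}) le_rfl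

/-- SPR: every node is on one of any uncountably many branches. -/
theorem spr {J : Set I} (hJ : ¬ J.Countable) (d : W.{u}) (u : W.{u} → Bool) :
    ttv e d u ≤ ⨆ c : J, thv e c.1 d u := by
  refine iSup_le fun s => ?_
  refine (he.cov s.1 {t | ∃ c ∈ J, c ∈ t.a ∧ d ≤ t.ht ∧ cutb d (t.f c) = u} ?_).trans ?_
  · intro s' hs'
    have hd : d ≤ s.1.ht := mem_T_ht s.2
    have hu : u ∈ s'.T d := by
      have := s.2
      rwa [← TC.T_eq hs' hd] at this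
    obtain ⟨c, hcJ, hc⟩ : ∃ c ∈ J, c ∉ s'.a := by
      by_contra hcon
      push Not at hcon
      exact hJ (s'.a_ctbl.mono hcon)
    obtain ⟨v, hv, hvu⟩ := s'.extn _ le_rfl _ (mem_T_ht hu) _ hu
    obtain ⟨t, h1, h2, h3, h4, h5⟩ := kadd s' c hc v hv
    refine ⟨t, h1, c, hcJ, h4 ▸ mem_insert _ _, h2 ▸ mem_T_ht hu, ?_⟩
    rw [h5, hvu]
  · refine iSup₂_le fun t ht => ?_
    obtain ⟨c, hcJ, h1, h2, h3⟩ := ht
    refine le_iSup_of_le ⟨c, hcJ⟩ ?_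
    exact le_iSup_of_le (⟨t, h1, h2, h3⟩ :
      {s : TC I // c ∈ s.a ∧ d ≤ s.ht ∧ cutb d (s.f c) = u}) le_rfl

theorem ttv_succ (d : W.{u}) (u : W.{u} → Bool) (i : Bool) :
    ttv e d u ≤ ttv e (Order.succ d) (snoc d u i) := by
  refine iSup_le fun s => ?_
  refine (he.cov s.1 {t | snoc d u i ∈ t.T (Order.succ d)} ?_).trans ?_
  · intro s' hs'
    obtain ⟨t, h1, h2, -⟩ := kext s' (Order.succ d)
    have hd : d < t.ht := (Order.lt_succ d).trans_le h2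
    refine ⟨t, h1, ?_⟩
    refine t.suc _ hd _ ?_ _
    rw [TC.T_eq (h1.trans hs') (mem_T_ht s.2)]
    exact s.2
  · refine iSup₂_le fun t ht => ?_
    exact le_iSup_of_le (⟨t, ht⟩ : {s : TC I // snoc d u i ∈ s.T (Order.succ d)}) le_rfl

theorem ttv_ext {d d' : W.{u}} (h : d ≤ d') (u : W.{u} → Bool) :
    ttv e d u ≤ ⨆ u' : {u' // cutb d u' = u}, ttv e d' u'.1 := by
  refine iSup_le fun s => ?_
  refine (he.cov s.1 {t | ∃ u', cutb d u' = u ∧ u' ∈ t.T d'} ?_).trans ?_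
  · intro s' hs'
    obtain ⟨t, h1, h2, -⟩ := kext s' d'
    have hu : u ∈ t.T d := by
      rw [TC.T_eq (h1.trans hs') (mem_T_ht s.2)]
      exact s.2
    obtain ⟨v, hv, hvu⟩ := t.extn _ h2 _ h _ hu
    exact ⟨t, h1, v, hvu, hv⟩
  · refine iSup₂_le fun t ht => ?_
    obtain ⟨u', h1, h2⟩ := ht
    refine le_iSup_of_le ⟨u', h1⟩ ?_
    exact le_iSup_of_le (⟨t, h2⟩ : {s : TC I // u' ∈ s.T d'}) le_rfl

end

end Pool.Agent.Lib.MP_e6fef2_lc.H77
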